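import Mathlib

/-!
# `B_3`-sets: counting lemmas
-/

namespace Pool.Agent.H56.BT

open Finset

/-- `A` is a `B_3`-set: the sums of three elements (repetition allowed) are distinct up to order -/
def B3 (A : Set ℕ) : Prop :=
  ∀ a ∈ A, ∀ b ∈ A, ∀ c ∈ A, ∀ d ∈ A, ∀ e ∈ A, ∀ f ∈ A,
    a ≤ b → b ≤ c → d ≤ e → e ≤ f → a + b + c = d + e + f → a = d ∧ b = e ∧ c = f

theorem sort3 {A : Set ℕ} {x y z : ℕ} (hx : x ∈ A) (hy : y ∈ A) (hz : z ∈ A) :
    ∃ p ∈ A, ∃ q ∈ A, ∃ r ∈ A, p ≤ q ∧ q ≤ r ∧ p + q + r = x + y + z ∧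
      (x = p ∨ x = q ∨ x = r) ∧ (∀ t, t = p ∨ t = q ∨ t = r → t = x ∨ t = y ∨ t = z) := by
  rcases le_total x y with h1 | h1 <;> rcases le_total y z with h2 | h2 <;>
    rcases le_total x z with h3 | h3
  · exact ⟨x, hx, y, hy, z, hz, h1, h2, by omega, by omega, fun t => by omega⟩
  · exact ⟨x, hx, y, hy, z, hz, h1, h2, by omega, by omega, fun t => by omega⟩
  · exact ⟨x, hx, z, hz, y, hy, h3, h2, by omega, by omega, fun t => by omega⟩
  · exact ⟨z, hz, x, hx, y, hy, h3, h1, by omega, by omega, fun t => by omega⟩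
  · exact ⟨y, hy, x, hx, z, hz, h1, h3, by omega, by omega, fun t => by omega⟩
  · exact ⟨y, hy, z, hz, x, hx, h2, h3, by omega, by omega, fun t => by omega⟩
  · exact ⟨z, hz, y, hy, x, hx, h2, h1, by omega, by omega, fun t => by omega⟩
  · exact ⟨z, hz, y, hy, x, hx, h2, h1, by omega, by omega, fun t => by omega⟩

/-- every summand occurs on the other side -/
theorem B3.mem {A : Set ℕ} (h : B3 A) {x y z u v w : ℕ} (hx : x ∈ A) (hy : y ∈ A) (hz : z ∈ A)
    (hu : u ∈ A) (hv : v ∈ A) (hw : w ∈ A) (hs : x + y + z = u + v + w) :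
    x = u ∨ x = v ∨ x = w := by
  obtain ⟨p, hp, q, hq, r, hr, h1, h2, h3, h4, -⟩ := sort3 hx hy hz
  obtain ⟨p', hp', q', hq', r', hr', h1', h2', h3', -, h5'⟩ := sort3 hu hv hw
  obtain ⟨rfl, rfl, rfl⟩ := h p hp q hq r hr p' hp' q' hq' r' hr' h1 h2 h1' h2' (by omega)
  exact h5' x h4

/-- the representations of `d = b - a - c` with `b ≠ a, c` are unique up to exchanging `a`, `c` -/
theorem B3.uniq {A : Set ℕ} (h : B3 A) {a b c a' b' c' : ℕ} (ha : a ∈ A) (hb : b ∈ A)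
    (hc : c ∈ A) (ha' : a' ∈ A) (hb' : b' ∈ A) (hc' : c' ∈ A) (hab : b ≠ a) (hcb : b ≠ c)
    (hs : b + a' + c' = b' + a + c) : b' = b ∧ ((a' = a ∧ c' = c) ∨ (a' = c ∧ c' = a)) := by
  have h1 := h.mem hb ha' hc' hb' ha hc hs
  have hbb : b = b' := by
    rcases h1 with h1 | h1 | h1
    · exact h1
    · exact absurd h1 hab
    · exact absurd h1 hcb
  subst hbb
  refine ⟨rfl, ?_⟩
  have h2 := h.mem ha' hb hc' hb ha hc (by omega)
  rcases h2 with h2 | h2 | h2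
  · have h3 := h.mem hc' hb ha' hb ha hc (by omega)
    rcases h3 with h3 | h3 | h3
    · have h4 := h.mem ha hb hc hb ha' hc' (by omega)
      omega
    · right; omega
    · left; omega
  · left; omega
  · right; omega

/-- `A` restricted to an interval `(x, y]` -/
noncomputable def cut (A : Set ℕ) (x y : ℕ) : Finset ℕ := by
  classical exact (Finset.Ioc x y).filter (· ∈ A)

theorem mem_cut {A : Set ℕ} {x y a : ℕ} : a ∈ cut A x y ↔ (x < a ∧ a ≤ y) ∧ a ∈ A := by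
  classical
  simp [cut]

/-- at most `2` triples with given `b - a - c`, hence at most `2 (p + q)` triples with
`b - a - c ∈ [-p, q)` -/
theorem B3.card_triples {A : Set ℕ} (h : B3 A) (T : Finset (ℕ × ℕ × ℕ)) (p q : ℕ)
    (hT : ∀ t ∈ T, t.1 ∈ A ∧ t.2.1 ∈ A ∧ t.2.2 ∈ A ∧ t.2.1 ≠ t.1 ∧ t.2.1 ≠ t.2.2 ∧
      t.1 + t.2.2 ≤ t.2.1 + p ∧ t.2.1 < t.1 + t.2.2 + q) : #T ≤ 2 * (p + q) := by
  classical
  have h1 : ∀ t ∈ T, t.2.1 + p - (t.1 + t.2.2) ∈ range (p + q) := by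
    intro t ht
    obtain ⟨-, -, -, -, -, h2, h3⟩ := hT t ht
    rw [mem_range]
    omega
  have h2 := Finset.card_le_mul_card_image_of_maps_to h1 2 (by
    intro d _
    rcases (T.filter (fun t => t.2.1 + p - (t.1 + t.2.2) = d)).eq_empty_or_nonempty with h3 | h3
    · rw [h3]; simp
    · obtain ⟨⟨a, b, c⟩, ht⟩ := h3
      rw [mem_filter] at ht
      obtain ⟨h4, h5, h6, h7, h8, h9, h10⟩ := hT _ ht.1
      have h11 := ht.2
      simp only at h4 h5 h6 h7 h8 h9 h10 h11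
      have h12 : T.filter (fun t => t.2.1 + p - (t.1 + t.2.2) = d) ⊆
          {(a, b, c), (c, b, a)} := by
        rintro ⟨a', b', c'⟩ ht'
        rw [mem_filter] at ht'
        obtain ⟨g4, g5, g6, g7, g8, g9, g10⟩ := hT _ ht'.1
        have g11 := ht'.2
        simp only at g4 g5 g6 g7 g8 g9 g10 g11
        obtain ⟨e1, e2⟩ := h.uniq h4 h5 h6 g4 g5 g6 h7 h8 (by omega)
        rcases e2 with ⟨e2, e3⟩ | ⟨e2, e3⟩
        · simp [e1, e2, e3]
        · simp [e1, e2, e3]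
      exact (card_le_card h12).trans (card_le_two))
  rw [card_range] at h2
  exact h2

/-- `|A ∩ [1, N]|³ ≤ 9 (3 N + 1)` -/
theorem B3.card_cube {A : Set ℕ} (h : B3 A) (N : ℕ) : #(cut A 0 N) ^ 3 ≤ 9 * (3 * N + 1) := by
  classical
  set S := cut A 0 N with hS
  have hcard : #(S ×ˢ S ×ˢ S) = #S ^ 3 := by
    rw [card_product, card_product]
    ring
  have h1 : ∀ t ∈ S ×ˢ S ×ˢ S, t.1 + t.2.1 + t.2.2 ∈ range (3 * N + 1) := by
    rintro ⟨a, b, c⟩ ht
    simp only [mem_product, hS, mem_cut] at ht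
    rw [mem_range]
    simp only
    omega
  rw [← hcard, ← card_range (3 * N + 1)]
  refine Finset.card_le_mul_card_image_of_maps_to h1 9 ?_
  intro s _
  rcases ((S ×ˢ S ×ˢ S).filter (fun t => t.1 + t.2.1 + t.2.2 = s)).eq_empty_or_nonempty with
    h3 | h3
  · rw [h3]; simp
  · obtain ⟨⟨a, b, c⟩, ht⟩ := h3
    rw [mem_filter] at ht
    simp only [mem_product, hS, mem_cut] at ht
    have h12 : (S ×ˢ S ×ˢ S).filter (fun t => t.1 + t.2.1 + t.2.2 = s) ⊆
        (({a, b, c} : Finset ℕ) ×ˢ ({a, b, c} : Finset ℕ)).image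
          (fun t => (t.1, t.2, s - t.1 - t.2)) := by
      rintro ⟨a', b', c'⟩ ht'
      rw [mem_filter] at ht'
      simp only [mem_product, hS, mem_cut] at ht'
      have e1 := h.mem ht'.1.1.2 ht'.1.2.1.2 ht'.1.2.2.2 ht.1.1.2 ht.1.2.1.2 ht.1.2.2.2
        (by omega)
      have e2 := h.mem ht'.1.2.1.2 ht'.1.1.2 ht'.1.2.2.2 ht.1.1.2 ht.1.2.1.2 ht.1.2.2.2
        (by omega)
      rw [mem_image]
      refine ⟨(a', b'), ?_, ?_⟩
      · simp only [mem_product, mem_insert, mem_singleton]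
        exact ⟨e1, e2⟩
      · simp only [Prod.mk.injEq, true_and]
        omega
    refine (card_le_card h12).trans (card_image_le.trans ?_)
    rw [card_product]
    have h13 : #({a, b, c} : Finset ℕ) ≤ 3 := card_le_three
    calc #({a, b, c} : Finset ℕ) * #({a, b, c} : Finset ℕ) ≤ 3 * 3 :=
          Nat.mul_le_mul h13 h13
      _ = 9 := rfl

end Pool.Agent.H56.BT
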