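import Pool.Agent.H56.BT.Scale

/-!
# The energy increment argument
-/

namespace Pool.Agent.H56.BT

open Finset

variable (A : Set ℕ) (κ ξ : ℕ)

/-- triples `(a, b, c)`, `a` in the scale `i - 2`, `b, c` in the scale `k`, with `b - c - a` small
compared with `N_j` -/
noncomputable def Tr (j k i : ℕ) : Finset (ℕ × ℕ × ℕ) :=
  (SS A κ ξ (i - 2) ×ˢ SS A κ ξ k ×ˢ SS A κ ξ k).filter
    (fun t => t.2.1 / NN κ ξ j = t.2.2 / NN κ ξ j + t.1 / NN κ ξ j)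

/-- the distances `1 = R_0 < R_1 < …` -/
def R (κ : ℕ) : ℕ → ℕ
  | 0 => 1
  | q + 1 => R κ q + 2 + (96 * κ ^ 3 + 1) * κ ^ (R κ q + 2)

variable {A κ ξ}

theorem R_pos (q : ℕ) : 1 ≤ R κ q := by
  induction q with
  | zero => exact le_rfl
  | succ q ih => rw [R]; omega

theorem R_le_succ (q : ℕ) : R κ q ≤ R κ (q + 1) := by
  rw [R]; omega

theorem R_mono : Monotone (R κ) := monotone_nat_of_le_succ R_le_succ

theorem card_Tr (j k i : ℕ) : (#(Tr A κ ξ j k i) : ℝ) = ∑ a ∈ SS A κ ξ (i - 2),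
    (prs (SS A κ ξ k) (fun b => b / NN κ ξ j) (a / NN κ ξ j) : ℝ) := by
  rw [Tr, card_filter, sum_product, Nat.cast_sum]
  refine sum_congr rfl fun a _ => ?_
  rw [prs, card_filter]

theorem Tr_lower (hκ : 2 ≤ κ) (hξ : 1 ≤ ξ) {k i j : ℕ} (hji : j + 3 ≤ i) (hik : i ≤ k)
    (hS : MM κ ξ k ≤ #(SS A κ ξ k)) (hS' : MM κ ξ (i - 2) ≤ #(SS A κ ξ (i - 2)))
    (he : ee A κ ξ k j - ee A κ ξ k i ≤ 1 / (80 * (κ : ℝ) ^ 3)) :
    (NN κ ξ j : ℝ) / (8 * (κ : ℝ) ^ 3 * (κ : ℝ) ^ (k - i + 2)) ≤ #(Tr A κ ξ j k i) := by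
  have hK := Kr_pos hκ
  have hM := Mr_pos hκ hξ k
  have hκ' : (0 : ℝ) < κ := by exact_mod_cast (by omega : 0 < κ)
  rw [card_Tr]
  have h1 : ∀ a ∈ SS A κ ξ (i - 2),
      (MM κ ξ k : ℝ) ^ 2 / (8 * (κ : ℝ) ^ 3 * ((κ : ℝ) ^ 3) ^ (k - j)) ≤
      (prs (SS A κ ξ k) (fun b => b / NN κ ξ j) (a / NN κ ξ j) : ℝ) := by
    intro a ha
    refine corr_lower hκ hξ (by omega) hik hS ?_ he
    have h2 := div_lt (κ := κ) (ξ := ξ) hκ hξ (k := i - 2) (i := j) (by omega) ha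
    have h3 : i - j = (i - 2 + 1 - j) + 1 := by omega
    rw [h3, pow_succ]
    have h4 := K_ge hκ
    have h5 : a / NN κ ξ j ≤ (κ ^ 3) ^ (i - 2 + 1 - j) := by omega
    calc 2 * (a / NN κ ξ j) ≤ 2 * (κ ^ 3) ^ (i - 2 + 1 - j) := by omega
      _ ≤ κ ^ 3 * (κ ^ 3) ^ (i - 2 + 1 - j) := Nat.mul_le_mul_right _ (by omega)
      _ = (κ ^ 3) ^ (i - 2 + 1 - j) * κ ^ 3 := by ring
  have h2 := card_nsmul_le_sum (SS A κ ξ (i - 2)) _ _ h1
  rw [nsmul_eq_mul] at h2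
  refine le_trans ?_ h2
  have h3 : (MM κ ξ (i - 2) : ℝ) ≤ #(SS A κ ξ (i - 2)) := by exact_mod_cast hS'
  refine le_trans ?_ (mul_le_mul_of_nonneg_right h3 (by positivity))
  rw [mul_div_assoc', div_le_div_iff₀ (by positivity) (by positivity)]
  have h4 : (NN κ ξ j : ℝ) * ((κ : ℝ) ^ 3) ^ (k - j) =
      (MM κ ξ (i - 2) : ℝ) * (MM κ ξ k : ℝ) ^ 2 * (κ : ℝ) ^ (k - i + 2) := by
    unfold NN MM
    push_cast
    have e1 : (κ : ℝ) ^ k = (κ : ℝ) ^ j * (κ : ℝ) ^ (k - j) := by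
      rw [← pow_add]; congr 1; omega
    have e2 : (κ : ℝ) ^ (i - 2) * (κ : ℝ) ^ (k - i + 2) = (κ : ℝ) ^ k := by
      rw [← pow_add]; congr 1; omega
    calc ((ξ : ℝ) * (κ : ℝ) ^ j) ^ 3 * ((κ : ℝ) ^ 3) ^ (k - j)
        = (ξ : ℝ) ^ 3 * ((κ : ℝ) ^ j * (κ : ℝ) ^ (k - j)) ^ 3 := by ring
      _ = (ξ : ℝ) ^ 3 * ((κ : ℝ) ^ k) ^ 3 := by rw [← e1]
      _ = (ξ : ℝ) ^ 3 * ((κ : ℝ) ^ k) ^ 2 * ((κ : ℝ) ^ (i - 2) * (κ : ℝ) ^ (k - i + 2)) := by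
          rw [e2]; ring
      _ = _ := by ring
  apply le_of_eq
  calc (NN κ ξ j : ℝ) * (8 * (κ : ℝ) ^ 3 * ((κ : ℝ) ^ 3) ^ (k - j))
      = 8 * (κ : ℝ) ^ 3 * ((NN κ ξ j : ℝ) * ((κ : ℝ) ^ 3) ^ (k - j)) := by ring
    _ = _ := by rw [h4]; ring

theorem sum_Tr_le (hA : B3 A) (hκ : 2 ≤ κ) (hξ : 1 ≤ ξ) (j : ℕ) (𝒦 : Finset ℕ) (i : ℕ → ℕ)
    (hi : ∀ k ∈ 𝒦, j + 3 ≤ i k ∧ i k ≤ k) :
    ∑ k ∈ 𝒦, #(Tr A κ ξ j k (i k)) ≤ 6 * NN κ ξ j := by
  classical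
  have hdisj : ∀ k ∈ 𝒦, ∀ k' ∈ 𝒦, k ≠ k' →
      Disjoint (Tr A κ ξ j k (i k)) (Tr A κ ξ j k' (i k')) := by
    intro k _ k' _ hne
    rw [Finset.disjoint_left]
    rintro ⟨a, b, c⟩ h1 h2
    simp only [Tr, mem_filter, mem_product, SS, mem_cut] at h1 h2
    rcases lt_or_gt_of_ne hne with h3 | h3
    · have h4 := NN_mono (ξ := ξ) hκ (show k + 1 ≤ k' from h3)
      omega
    · have h4 := NN_mono (ξ := ξ) hκ (show k' + 1 ≤ k from h3)
      omega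
  rw [← card_biUnion hdisj]
  have h := hA.card_triples (𝒦.biUnion (fun k => Tr A κ ξ j k (i k))) (2 * NN κ ξ j)
    (NN κ ξ j) (by
      intro t ht
      obtain ⟨k, hk, ht⟩ := mem_biUnion.1 ht
      obtain ⟨a, b, c⟩ := t
      obtain ⟨h1, h2⟩ := hi k hk
      simp only [Tr, mem_filter, mem_product, SS, mem_cut] at ht
      obtain ⟨⟨⟨⟨ha1, ha2⟩, ha3⟩, ⟨⟨hb1, hb2⟩, hb3⟩, ⟨⟨hc1, hc2⟩, hc3⟩⟩, hd⟩ := ht
      have hN := NN_pos hκ hξ j
      have e1 : NN κ ξ (i k - 2 + 1) ≤ NN κ ξ k := NN_mono hκ (by omega)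
      have e2 : NN κ ξ j ≤ NN κ ξ (i k - 2) := NN_mono hκ (by omega)
      have e3 : 1 ≤ a / NN κ ξ j := by
        rw [Nat.one_le_div_iff hN]
        omega
      have ea := Nat.div_add_mod a (NN κ ξ j)
      have eb := Nat.div_add_mod b (NN κ ξ j)
      have ec := Nat.div_add_mod c (NN κ ξ j)
      have ma := Nat.mod_lt a hN
      have mb := Nat.mod_lt b hN
      have mc := Nat.mod_lt c hN
      rw [hd, mul_add] at eb
      refine ⟨ha3, hb3, hc3, ?_, ?_, ?_, ?_⟩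
      · simp only; omega
      · simp only
        intro e
        rw [e] at hd
        omega
      · simp only; omega
      · simp only; omega)
  omega

/-- the energy increment argument -/
theorem core (hA : B3 A) (hκ : 2 ≤ κ) (hξ : 1 ≤ ξ) (C2 p : ℕ) (hp : p = 80 * κ ^ 3 * C2 + 1)
    (hS : ∀ k < 2 * R κ p, MM κ ξ k ≤ #(SS A κ ξ k))
    (hE : ∀ k < 2 * R κ p, ∀ j ≤ k, ee A κ ξ k j ≤ C2) : False := by
  classical
  have hK := Kr_pos hκ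
  have hκ' : (0 : ℝ) < κ := by exact_mod_cast (by omega : 0 < κ)
  set W := R κ p with hW
  have hW1 : 1 ≤ W := R_pos p
  -- pigeonhole
  have hq : ∀ k, W ≤ k → k < 2 * W → ∃ q < p,
      ee A κ ξ k (k - R κ (q + 1)) - ee A κ ξ k (k - R κ q) ≤ 1 / (80 * (κ : ℝ) ^ 3) := by
    intro k hk1 hk2
    by_contra hcon
    push Not at hcon
    have key : ∀ q ≤ p, (q : ℝ) / (80 * (κ : ℝ) ^ 3) ≤ ee A κ ξ k (k - R κ q) := by
      intro q
      induction q with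
      | zero =>
        intro _
        simp only [Nat.cast_zero, zero_div]
        unfold ee
        positivity
      | succ q ih =>
        intro hq
        have h1 := ih (by omega)
        have h2 := hcon q (by omega)
        push_cast
        rw [add_div]
        linarith
    have h1 := key p le_rfl
    have h2 := hE k hk2 (k - R κ p) (Nat.sub_le _ _)
    have h3 : (C2 : ℝ) < (p : ℝ) / (80 * (κ : ℝ) ^ 3) := by
      rw [lt_div_iff₀ (by positivity), hp]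
      push_cast
      linarith
    linarith
  choose! q hq1 hq2 using hq
  -- the pairs (j, k)
  set 𝒦 : ℕ → Finset ℕ := fun j => (Ico W (2 * W)).filter
    (fun k => k - R κ (q k + 1) ≤ j ∧ j + 3 + R κ (q k) ≤ k) with h𝒦
  have hj : ∀ j, ∑ k ∈ 𝒦 j, 1 / (κ : ℝ) ^ (R κ (q k) + 2) ≤ 48 * (κ : ℝ) ^ 3 := by
    intro j
    have h1 := sum_Tr_le (ξ := ξ) hA hκ hξ j (𝒦 j) (fun k => k - R κ (q k)) (by
      intro k hk
      simp only [h𝒦, mem_filter, mem_Ico] at hk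
      constructor
      · omega
      · exact Nat.sub_le _ _)
    have h2 : ∀ k ∈ 𝒦 j, (NN κ ξ j : ℝ) / (8 * (κ : ℝ) ^ 3 * (κ : ℝ) ^ (R κ (q k) + 2)) ≤
        #(Tr A κ ξ j k (k - R κ (q k))) := by
      intro k hk
      simp only [h𝒦, mem_filter, mem_Ico] at hk
      obtain ⟨⟨hk1, hk2⟩, hk3, hk4⟩ := hk
      have hR : R κ (q k) ≤ k := by omega
      have h3 := Tr_lower (A := A) hκ hξ (k := k) (i := k - R κ (q k)) (j := j) (by omega)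
        (Nat.sub_le _ _) (hS k hk2) (hS _ (by omega)) (by
          have h4 := hq2 k hk1 hk2
          have h5 := ee_anti (A := A) hκ hξ (k := k) (i := j) (j := k - R κ (q k + 1)) hk3
            (by omega)
          linarith)
      have h4 : k - (k - R κ (q k)) = R κ (q k) := by omega
      rw [h4] at h3
      exact h3
    have h3 := sum_le_sum h2
    have h4 : (∑ k ∈ 𝒦 j, (#(Tr A κ ξ j k (k - R κ (q k))) : ℝ)) ≤ 6 * (NN κ ξ j : ℝ) := by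
      exact_mod_cast h1
    have hN : (0 : ℝ) < (NN κ ξ j : ℝ) := by exact_mod_cast NN_pos hκ hξ j
    have h5 : ∑ k ∈ 𝒦 j, (NN κ ξ j : ℝ) / (8 * (κ : ℝ) ^ 3 * (κ : ℝ) ^ (R κ (q k) + 2)) =
        (NN κ ξ j : ℝ) / (8 * (κ : ℝ) ^ 3) * ∑ k ∈ 𝒦 j, 1 / (κ : ℝ) ^ (R κ (q k) + 2) := by
      rw [mul_sum]
      refine sum_congr rfl fun k _ => ?_
      field_simp
    rw [h5] at h3
    have h6 := h3.trans h4
    rw [div_mul_eq_mul_div, div_le_iff₀ (by positivity)] at h6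
    have h7 : (NN κ ξ j : ℝ) * ∑ k ∈ 𝒦 j, 1 / (κ : ℝ) ^ (R κ (q k) + 2) ≤
        (NN κ ξ j : ℝ) * (48 * (κ : ℝ) ^ 3) := by linarith
    exact le_of_mul_le_mul_left h7 hN
  have hsum : ∑ j ∈ range (2 * W), ∑ k ∈ 𝒦 j, 1 / (κ : ℝ) ^ (R κ (q k) + 2) ≤
      (2 * W : ℕ) * (48 * (κ : ℝ) ^ 3) := by
    have h1 := sum_le_card_nsmul (range (2 * W)) _ _ (fun j _ => hj j)
    rwa [card_range, nsmul_eq_mul] at h1
  have hswap : ∑ j ∈ range (2 * W), ∑ k ∈ 𝒦 j, 1 / (κ : ℝ) ^ (R κ (q k) + 2) =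
      ∑ k ∈ Ico W (2 * W), ∑ j ∈ (range (2 * W)).filter
        (fun j => k - R κ (q k + 1) ≤ j ∧ j + 3 + R κ (q k) ≤ k),
        1 / (κ : ℝ) ^ (R κ (q k) + 2) := by
    simp only [h𝒦, sum_filter]
    exact sum_comm
  have hk : ∀ k ∈ Ico W (2 * W), (96 * (κ : ℝ) ^ 3 + 1) ≤ ∑ j ∈ (range (2 * W)).filter
        (fun j => k - R κ (q k + 1) ≤ j ∧ j + 3 + R κ (q k) ≤ k),
        1 / (κ : ℝ) ^ (R κ (q k) + 2) := by
    intro k hk
    rw [mem_Ico] at hk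
    rw [sum_const, nsmul_eq_mul]
    have hR1 : R κ (q k + 1) = R κ (q k) + 2 + (96 * κ ^ 3 + 1) * κ ^ (R κ (q k) + 2) := rfl
    have hR2 : R κ (q k + 1) ≤ W := R_mono (hq1 k hk.1 hk.2)
    have hpos : 1 ≤ (96 * κ ^ 3 + 1) * κ ^ (R κ (q k) + 2) :=
      Nat.mul_pos (by omega) (by positivity)
    have hcard : (96 * κ ^ 3 + 1) * κ ^ (R κ (q k) + 2) ≤ #((range (2 * W)).filter
        (fun j => k - R κ (q k + 1) ≤ j ∧ j + 3 + R κ (q k) ≤ k)) := by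
      have h1 : Icc (k - R κ (q k + 1)) (k - 3 - R κ (q k)) ⊆ (range (2 * W)).filter
          (fun j => k - R κ (q k + 1) ≤ j ∧ j + 3 + R κ (q k) ≤ k) := by
        intro j hj
        rw [mem_Icc] at hj
        simp only [mem_filter, mem_range]
        omega
      refine le_trans ?_ (card_le_card h1)
      rw [Nat.card_Icc]
      omega
    have hcard' : ((96 * κ ^ 3 + 1 : ℕ) : ℝ) * (κ : ℝ) ^ (R κ (q k) + 2) ≤
        (#((range (2 * W)).filter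
        (fun j => k - R κ (q k + 1) ≤ j ∧ j + 3 + R κ (q k) ≤ k)) : ℝ) := by
      exact_mod_cast hcard
    have hpow : (0 : ℝ) < (κ : ℝ) ^ (R κ (q k) + 2) := by positivity
    rw [mul_one_div, le_div_iff₀ hpow]
    push_cast at hcard'
    exact hcard'
  have h1 := card_nsmul_le_sum (Ico W (2 * W)) _ _ hk
  rw [← hswap, Nat.card_Ico, nsmul_eq_mul] at h1
  have h2 := h1.trans hsum
  have h3 : (2 * W - W : ℕ) = W := by omega
  rw [h3] at h2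
  push_cast at h2
  have hW' : (1 : ℝ) ≤ W := by exact_mod_cast hW1
  nlinarith

end Pool.Agent.H56.BT
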