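import Pool.Agent.H56.BT.Final

/-!
# Bounded density implies the pair bound
-/

namespace Pool.Agent.H56.BT

open Finset

theorem cbrt_two_mul {b x : ℕ} (h : b ≤ 2 * x) :
    (b : ℝ) ^ (1 / 3 : ℝ) ≤ 2 * (x : ℝ) ^ (1 / 3 : ℝ) := by
  have h1 : (b : ℝ) ≤ 8 * x := by
    have : (b : ℝ) ≤ 2 * x := by exact_mod_cast h
    have hx : (0 : ℝ) ≤ x := Nat.cast_nonneg x
    linarith
  calc (b : ℝ) ^ (1 / 3 : ℝ) ≤ (8 * x : ℝ) ^ (1 / 3 : ℝ) :=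
        Real.rpow_le_rpow (Nat.cast_nonneg _) h1 (by norm_num)
    _ = (8 : ℝ) ^ (1 / 3 : ℝ) * (x : ℝ) ^ (1 / 3 : ℝ) :=
        Real.mul_rpow (by norm_num) (Nat.cast_nonneg _)
    _ = 2 * (x : ℝ) ^ (1 / 3 : ℝ) := by
        congr 1
        rw [show (8 : ℝ) = 2 ^ (3 : ℕ) by norm_num, ← Real.rpow_natCast,
          ← Real.rpow_mul (by norm_num)]
        norm_num

theorem B3.card_real {A : Set ℕ} (h : B3 A) {x : ℕ} (hx : 1 ≤ x) :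
    (#(cut A 0 (2 * x)) : ℝ) ≤ 4 * (x : ℝ) ^ (1 / 3 : ℝ) := by
  have h1 := h.card_cube (2 * x)
  have h2 : #(cut A 0 (2 * x)) ^ 3 ≤ 64 * x := by omega
  have h3 : (#(cut A 0 (2 * x)) : ℝ) ^ 3 ≤ (4 * (x : ℝ) ^ (1 / 3 : ℝ)) ^ 3 := by
    have e : (4 * (x : ℝ) ^ (1 / 3 : ℝ)) ^ 3 = 64 * x := by
      rw [mul_pow, ← Real.rpow_natCast ((x : ℝ) ^ (1 / 3 : ℝ)),
        ← Real.rpow_mul (Nat.cast_nonneg _)]
      norm_num
    rw [e]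
    exact_mod_cast h2
  exact (pow_le_pow_iff_left₀ (Nat.cast_nonneg _) (by positivity) (by norm_num)).1 h3

theorem pairBound_of_densityBound {A : Set ℕ} (hA : B3 A) {C : ℝ} (h : DensityBound A C) :
    PairBound A (8 * |C|) := by
  classical
  intro ε hε
  obtain ⟨x₀, hx₀⟩ := h ε hε
  refine ⟨max x₀ 1, ?_⟩
  intro x hx
  have hx1 : 1 ≤ x := (le_max_right _ _).trans hx
  have hx2 : x₀ ≤ x := (le_max_left _ _).trans hx
  have hfin := pair_finite A x (ε * x)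
  set P := hfin.toFinset with hP
  have hncard : {t : ℕ × ℕ | t.1 ∈ A ∧ t.2 ∈ A ∧ x < t.1 ∧ t.1 ≤ 2 * x ∧ t.1 < t.2 ∧
      (t.2 : ℝ) ≤ t.1 + ε * x}.ncard = #P := by
    rw [hP, ← Set.ncard_eq_toFinset_card _ hfin]
  rw [hncard]
  have hmem : ∀ t, t ∈ P ↔ t.1 ∈ A ∧ t.2 ∈ A ∧ x < t.1 ∧ t.1 ≤ 2 * x ∧ t.1 < t.2 ∧
      (t.2 : ℝ) ≤ t.1 + ε * x := by
    intro t
    rw [hP, Set.Finite.mem_toFinset]
    rfl
  have h1 : #P = ∑ b ∈ cut A x (2 * x), #(P.filter (fun t => t.1 = b)) := by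
    apply card_eq_sum_card_fiberwise (f := Prod.fst)
    intro t ht
    obtain ⟨h2, -, h3, h4, -, -⟩ := (hmem t).1 ht
    exact mem_cut.2 ⟨⟨h3, h4⟩, h2⟩
  have h2 : ∀ b ∈ cut A x (2 * x), (#(P.filter (fun t => t.1 = b)) : ℝ) ≤
      |C| * ε * (2 * (x : ℝ) ^ (1 / 3 : ℝ)) := by
    intro b hb
    obtain ⟨⟨hb1, hb2⟩, hb3⟩ := mem_cut.1 hb
    have h3 := hx₀ b (by omega)
    have hfin2 : {a : ℕ | a ∈ A ∧ b < a ∧ (a : ℝ) ≤ (1 + ε) * b}.Finite := by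
      apply Set.Finite.subset (Finset.range (⌊(1 + ε) * b⌋₊ + 1)).finite_toSet
      rintro a ⟨-, -, ha⟩
      rw [mem_coe, mem_range]
      exact Nat.lt_succ_of_le (Nat.le_floor ha)
    have h4 : #(P.filter (fun t => t.1 = b)) ≤
        {a : ℕ | a ∈ A ∧ b < a ∧ (a : ℝ) ≤ (1 + ε) * b}.ncard := by
      rw [← Set.ncard_coe_finset]
      refine Set.ncard_le_ncard_of_injOn Prod.snd ?_ ?_ hfin2
      · intro t ht
        rw [mem_coe, mem_filter, hmem] at ht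
        obtain ⟨⟨-, h5, -, -, h6, h7⟩, h8⟩ := ht
        rw [h8] at h6 h7
        refine ⟨h5, h6, ?_⟩
        have h9 : (x : ℝ) ≤ b := by exact_mod_cast hb1.le
        nlinarith
      · intro t ht t' ht' he
        rw [mem_coe, mem_filter] at ht ht'
        exact Prod.ext (ht.2.trans ht'.2.symm) he
    have h5 : (#(P.filter (fun t => t.1 = b)) : ℝ) ≤ C * ε * (b : ℝ) ^ (1 / 3 : ℝ) :=
      le_trans (by exact_mod_cast h4) h3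
    refine h5.trans ?_
    have h6 := cbrt_two_mul hb2
    have h7 : (0 : ℝ) ≤ (b : ℝ) ^ (1 / 3 : ℝ) := Real.rpow_nonneg (Nat.cast_nonneg _) _
    calc C * ε * (b : ℝ) ^ (1 / 3 : ℝ) ≤ |C| * ε * (b : ℝ) ^ (1 / 3 : ℝ) :=
          mul_le_mul_of_nonneg_right (mul_le_mul_of_nonneg_right (le_abs_self C) hε.le) h7
      _ ≤ |C| * ε * (2 * (x : ℝ) ^ (1 / 3 : ℝ)) :=
          mul_le_mul_of_nonneg_left h6 (by positivity)
  have h3 : (#P : ℝ) ≤ #(cut A x (2 * x)) * (|C| * ε * (2 * (x : ℝ) ^ (1 / 3 : ℝ))) := by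
    rw [h1, Nat.cast_sum]
    have h4 := sum_le_card_nsmul (cut A x (2 * x)) _ _ h2
    rwa [nsmul_eq_mul] at h4
  have h4 : (#(cut A x (2 * x)) : ℝ) ≤ 4 * (x : ℝ) ^ (1 / 3 : ℝ) := by
    have h5 := card_cut_add A (show x ≤ 2 * x by omega)
    have h6 : #(cut A x (2 * x)) ≤ #(cut A 0 (2 * x)) := by omega
    exact le_trans (by exact_mod_cast h6) (hA.card_real hx1)
  have hxr : (0 : ℝ) < x := by exact_mod_cast hx1
  calc (#P : ℝ) ≤ #(cut A x (2 * x)) * (|C| * ε * (2 * (x : ℝ) ^ (1 / 3 : ℝ))) := h3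
    _ ≤ (4 * (x : ℝ) ^ (1 / 3 : ℝ)) * (|C| * ε * (2 * (x : ℝ) ^ (1 / 3 : ℝ))) :=
        mul_le_mul_of_nonneg_right h4 (by positivity)
    _ = 8 * |C| * ε * ((x : ℝ) ^ (1 / 3 : ℝ) * (x : ℝ) ^ (1 / 3 : ℝ)) := by ring
    _ = 8 * |C| * ε * (x : ℝ) ^ (2 / 3 : ℝ) := by
        rw [← Real.rpow_add hxr]
        norm_num

end Pool.Agent.H56.BT
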