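import Pool.Agent.H56.BT.Core

/-!
# From the pair bound to the energy bound; the theorem
-/

namespace Pool.Agent.H56.BT

open Finset

/-- for every `ε > 0` and all large `x` there are at most `C ε x^(2/3)` pairs `b < c` in `A` with
`x < b ≤ 2 x` and `c - b ≤ ε x` -/
def PairBound (A : Set ℕ) (C : ℝ) : Prop :=
  ∀ ε : ℝ, 0 < ε → ∃ x₀ : ℕ, ∀ x : ℕ, x₀ ≤ x →
    (({t : ℕ × ℕ | t.1 ∈ A ∧ t.2 ∈ A ∧ x < t.1 ∧ t.1 ≤ 2 * x ∧ t.1 < t.2 ∧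
      (t.2 : ℝ) ≤ t.1 + ε * x}.ncard : ℕ) : ℝ) ≤ C * ε * (x : ℝ) ^ (2 / 3 : ℝ)

/-- for every `ε > 0` and all large `x` the interval `(x, (1 + ε) x]` contains at most
`C ε x^(1/3)` elements of `A` -/
def DensityBound (A : Set ℕ) (C : ℝ) : Prop :=
  ∀ ε : ℝ, 0 < ε → ∃ x₀ : ℕ, ∀ x : ℕ, x₀ ≤ x →
    (({a : ℕ | a ∈ A ∧ x < a ∧ (a : ℝ) ≤ (1 + ε) * x}.ncard : ℕ) : ℝ) ≤
      C * ε * (x : ℝ) ^ (1 / 3 : ℝ)

theorem cut_zero (A : Set ℕ) (N : ℕ) : A ∩ Set.Icc 1 N = (cut A 0 N : Set ℕ) := by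
  ext a
  simp only [Set.mem_inter_iff, Set.mem_Icc, mem_coe, mem_cut]
  constructor
  · rintro ⟨h1, h2, h3⟩
    exact ⟨⟨by omega, h3⟩, h1⟩
  · rintro ⟨⟨h1, h2⟩, h3⟩
    exact ⟨h3, by omega, h2⟩

theorem ncard_cut (A : Set ℕ) (N : ℕ) : (A ∩ Set.Icc 1 N).ncard = #(cut A 0 N) := by
  rw [cut_zero, Set.ncard_coe_finset]

theorem B3.card_le {A : Set ℕ} (h : B3 A) {N M : ℕ} (hN : 1 ≤ N) (hM : N ≤ M ^ 3) :
    #(cut A 0 N) ≤ 4 * M := by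
  have h1 := h.card_cube N
  have h2 : #(cut A 0 N) ^ 3 ≤ (4 * M) ^ 3 := by
    calc #(cut A 0 N) ^ 3 ≤ 9 * (3 * N + 1) := h1
      _ ≤ 64 * M ^ 3 := by omega
      _ = (4 * M) ^ 3 := by ring
  exact (Nat.pow_le_pow_iff_left (by norm_num)).1 h2

theorem card_cut_add (A : Set ℕ) {x y : ℕ} (h : x ≤ y) :
    #(cut A 0 y) = #(cut A 0 x) + #(cut A x y) := by
  classical
  rw [← card_union_of_disjoint]
  · congr 1
    ext a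
    simp only [mem_union, mem_cut]
    constructor
    · rintro ⟨⟨h1, h2⟩, h3⟩
      rcases Nat.lt_or_ge x a with h4 | h4
      · exact Or.inr ⟨⟨h4, h2⟩, h3⟩
      · exact Or.inl ⟨⟨h1, h4⟩, h3⟩
    · rintro (⟨⟨h1, h2⟩, h3⟩ | ⟨⟨h1, h2⟩, h3⟩)
      · exact ⟨⟨h1, by omega⟩, h3⟩
      · exact ⟨⟨by omega, h2⟩, h3⟩
  · rw [Finset.disjoint_left]
    intro a h1 h2
    rw [mem_cut] at h1 h2
    omega

theorem dyadic {y b n : ℕ} (h1 : y < b) (h2 : b ≤ y * 2 ^ n) :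
    ∃ s < n, y * 2 ^ s < b ∧ b ≤ 2 * (y * 2 ^ s) := by
  induction n with
  | zero => simp at h2; omega
  | succ n ih =>
    rcases Nat.lt_or_ge (y * 2 ^ n) b with h3 | h3
    · refine ⟨n, Nat.lt_succ_self n, h3, ?_⟩
      rw [pow_succ] at h2
      calc b ≤ y * (2 ^ n * 2) := h2
        _ = 2 * (y * 2 ^ n) := by ring
    · obtain ⟨s, h4, h5⟩ := ih h3
      exact ⟨s, by omega, h5⟩

theorem prs_le (S : Finset ℕ) (g : ℕ → ℕ) :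
    prs S g 0 ≤ #S + 2 * #((S ×ˢ S).filter (fun t => t.1 < t.2 ∧ g t.1 = g t.2)) := by
  classical
  set P := (S ×ˢ S).filter (fun t => t.1 < t.2 ∧ g t.1 = g t.2) with hP
  have h : (S ×ˢ S).filter (fun t => g t.1 = g t.2 + 0) ⊆
      S.image (fun a => (a, a)) ∪ (P ∪ P.image Prod.swap) := by
    rintro ⟨b, c⟩ ht
    simp only [mem_filter, mem_product, add_zero] at ht
    simp only [mem_union, mem_image, hP, mem_filter, mem_product]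
    rcases lt_trichotomy b c with h1 | h1 | h1
    · exact Or.inr (Or.inl ⟨ht.1, h1, ht.2⟩)
    · exact Or.inl ⟨b, ht.1.1, by rw [h1]⟩
    · exact Or.inr (Or.inr ⟨(c, b), ⟨⟨ht.1.2, ht.1.1⟩, h1, ht.2.symm⟩, rfl⟩)
  unfold prs
  refine (card_le_card h).trans ((card_union_le _ _).trans ?_)
  have h1 := card_image_le (s := S) (f := fun a => (a, a))
  have h2 := card_union_le P (P.image Prod.swap)
  have h3 := card_image_le (s := P) (f := Prod.swap)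
  omega

theorem pair_finite (A : Set ℕ) (x : ℕ) (r : ℝ) :
    {t : ℕ × ℕ | t.1 ∈ A ∧ t.2 ∈ A ∧ x < t.1 ∧ t.1 ≤ 2 * x ∧ t.1 < t.2 ∧
      (t.2 : ℝ) ≤ t.1 + r}.Finite := by
  apply Set.Finite.subset ((Finset.range (2 * x + 1)) ×ˢ
    (Finset.range (2 * x + ⌊|r|⌋₊ + 2)) : Finset (ℕ × ℕ)).finite_toSet
  rintro ⟨b, c⟩ ⟨-, -, -, h1, -, h2⟩
  simp only [coe_product, Set.mem_prod, mem_coe, Finset.mem_range]
  simp only at h1 h2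
  refine ⟨by omega, ?_⟩
  have h3 : (c : ℝ) < (2 * x + ⌊|r|⌋₊ + 2 : ℕ) := by
    push_cast
    have h4 := Nat.lt_floor_add_one |r|
    have h5 : (b : ℝ) ≤ 2 * x := by exact_mod_cast h1
    have h6 := le_abs_self r
    linarith
  exact_mod_cast h3

theorem cbrt_cube (M : ℕ) : ((M ^ 3 : ℕ) : ℝ) ^ (1 / 3 : ℝ) = M := by
  push_cast
  rw [← Real.rpow_natCast, ← Real.rpow_mul (Nat.cast_nonneg M)]
  norm_num

theorem mul_rpow_le {x M : ℕ} (hx : 0 < x) (h : M ^ 3 ≤ x) :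
    (M : ℝ) * (x : ℝ) ^ (2 / 3 : ℝ) ≤ x := by
  have hx' : (0 : ℝ) < x := by exact_mod_cast hx
  have h1 : (M : ℝ) ≤ (x : ℝ) ^ (1 / 3 : ℝ) := by
    rw [← cbrt_cube M]
    apply Real.rpow_le_rpow (Nat.cast_nonneg _) (by exact_mod_cast h) (by norm_num)
  calc (M : ℝ) * (x : ℝ) ^ (2 / 3 : ℝ) ≤ (x : ℝ) ^ (1 / 3 : ℝ) * (x : ℝ) ^ (2 / 3 : ℝ) :=
        mul_le_mul_of_nonneg_right h1 (Real.rpow_nonneg hx'.le _)
    _ = x := by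
        rw [← Real.rpow_add hx']
        norm_num

/-- the energy bound -/
theorem ee_le {A : Set ℕ} (hA : B3 A) {C : ℝ} {e κ ξ k : ℕ} (he : 1 ≤ e) (hκe : κ = 2 ^ e)
    (hξ : 4 * κ * (κ ^ 3) ^ k ≤ ξ)
    (hC : ∀ s < 3 * e, (({t : ℕ × ℕ | t.1 ∈ A ∧ t.2 ∈ A ∧ NN κ ξ k * 2 ^ s < t.1 ∧
      t.1 ≤ 2 * (NN κ ξ k * 2 ^ s) ∧ t.1 < t.2 ∧
      (t.2 : ℝ) ≤ t.1 + (1 / (2 ^ s * ((κ : ℝ) ^ 3) ^ k)) * (NN κ ξ k * 2 ^ s : ℕ)}.ncard : ℕ) :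
        ℝ) ≤ C * (1 / (2 ^ s * ((κ : ℝ) ^ 3) ^ k)) * ((NN κ ξ k * 2 ^ s : ℕ) : ℝ) ^ (2 / 3 : ℝ)) :
    ee A κ ξ k 0 ≤ 1 + 6 * e * |C| := by
  classical
  have hκ : 2 ≤ κ := by
    rw [hκe]
    calc 2 = 2 ^ 1 := rfl
      _ ≤ 2 ^ e := Nat.pow_le_pow_right (by norm_num) he
  have hκ0 : 0 < κ := by omega
  have hξ1 : 1 ≤ ξ := le_trans (Nat.mul_pos (by omega) (by positivity)) hξ
  have hK := Kr_pos hκ
  have hM := Mr_pos hκ hξ1 k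
  set S := SS A κ ξ k with hS
  set P := (S ×ˢ S).filter (fun t => t.1 < t.2 ∧ t.1 / NN κ ξ 0 = t.2 / NN κ ξ 0) with hP
  have hN0 := NN_pos hκ hξ1 0
  have hNk := NN_pos hκ hξ1 k
  have hNk0 : NN κ ξ k = NN κ ξ 0 * (κ ^ 3) ^ k := by
    have := NN_add (κ := κ) (ξ := ξ) 0 k
    rwa [zero_add] at this
  -- pairs
  have hPs : P ⊆ (range (3 * e)).biUnion (fun s => P.filter
      (fun t => NN κ ξ k * 2 ^ s < t.1 ∧ t.1 ≤ 2 * (NN κ ξ k * 2 ^ s))) := by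
    intro t ht
    have ht' := ht
    simp only [hP, mem_filter, mem_product, hS, SS, mem_cut] at ht'
    have h1 : NN κ ξ (k + 1) = NN κ ξ k * 2 ^ (3 * e) := by
      rw [NN_add, pow_one, hκe, ← pow_mul, mul_comm e 3]
    obtain ⟨s, hs, h2⟩ := dyadic ht'.1.1.1.1 (h1 ▸ ht'.1.1.1.2)
    exact mem_biUnion.2 ⟨s, mem_range.2 hs, mem_filter.2 ⟨ht, h2⟩⟩
  have hcard : ∀ s ∈ range (3 * e), (#(P.filter
      (fun t => NN κ ξ k * 2 ^ s < t.1 ∧ t.1 ≤ 2 * (NN κ ξ k * 2 ^ s))) : ℝ) ≤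
      |C| * ((NN κ ξ 0 : ℝ) / (MM κ ξ k : ℝ)) := by
    intro s hs
    rw [mem_range] at hs
    have h1 := hC s hs
    set x := NN κ ξ k * 2 ^ s with hx
    have hx0 : 0 < x := Nat.mul_pos hNk (by positivity)
    have hx0' : (0 : ℝ) < x := by exact_mod_cast hx0
    set ε : ℝ := 1 / (2 ^ s * ((κ : ℝ) ^ 3) ^ k) with hε
    have hεx : ε * x = NN κ ξ 0 := by
      rw [hε, hx, hNk0]
      push_cast
      field_simp
    have hεpos : 0 < ε := by positivity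
    have h2 : #(P.filter (fun t => x < t.1 ∧ t.1 ≤ 2 * x)) ≤
        {t : ℕ × ℕ | t.1 ∈ A ∧ t.2 ∈ A ∧ x < t.1 ∧ t.1 ≤ 2 * x ∧ t.1 < t.2 ∧
          (t.2 : ℝ) ≤ t.1 + ε * x}.ncard := by
      rw [← Set.ncard_coe_finset]
      apply Set.ncard_le_ncard _ (pair_finite A x _)
      intro t ht
      simp only [coe_filter, Set.mem_ofPred_eq, hP, mem_filter, mem_product, hS, SS,
        mem_cut] at ht
      obtain ⟨⟨⟨⟨h3, h4⟩, ⟨h5, h6⟩⟩, h7, h8⟩, h9, h10⟩ := ht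
      refine ⟨h4, h6, h9, h10, h7, ?_⟩
      rw [hεx]
      have e1 := Nat.div_add_mod t.1 (NN κ ξ 0)
      have e2 := Nat.div_add_mod t.2 (NN κ ξ 0)
      have e3 := Nat.mod_lt t.2 hN0
      rw [← h8] at e2
      have e4 : t.2 ≤ t.1 + NN κ ξ 0 := by omega
      exact_mod_cast e4
    have h3 : (#(P.filter (fun t => x < t.1 ∧ t.1 ≤ 2 * x)) : ℝ) ≤
        C * ε * (x : ℝ) ^ (2 / 3 : ℝ) := le_trans (by exact_mod_cast h2) h1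
    refine h3.trans ?_
    have h4 : (MM κ ξ k : ℝ) * (x : ℝ) ^ (2 / 3 : ℝ) ≤ x := by
      apply mul_rpow_le hx0
      rw [← NN_eq, hx]
      exact Nat.le_mul_of_pos_right _ (by positivity)
    have h5 : ε * (x : ℝ) ^ (2 / 3 : ℝ) ≤ (NN κ ξ 0 : ℝ) / (MM κ ξ k : ℝ) := by
      rw [le_div_iff₀ hM, ← hεx]
      calc ε * (x : ℝ) ^ (2 / 3 : ℝ) * (MM κ ξ k : ℝ) =
            ε * ((MM κ ξ k : ℝ) * (x : ℝ) ^ (2 / 3 : ℝ)) := by ring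
        _ ≤ ε * x := mul_le_mul_of_nonneg_left h4 hεpos.le
    calc C * ε * (x : ℝ) ^ (2 / 3 : ℝ) = C * (ε * (x : ℝ) ^ (2 / 3 : ℝ)) := by ring
      _ ≤ |C| * (ε * (x : ℝ) ^ (2 / 3 : ℝ)) :=
          mul_le_mul_of_nonneg_right (le_abs_self C) (by positivity)
      _ ≤ _ := mul_le_mul_of_nonneg_left h5 (abs_nonneg C)
  have hPcard : (#P : ℝ) ≤ (3 * e : ℕ) * (|C| * ((NN κ ξ 0 : ℝ) / (MM κ ξ k : ℝ))) := by
    have h1 : (#P : ℝ) ≤ ∑ s ∈ range (3 * e), (#(P.filter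
      (fun t => NN κ ξ k * 2 ^ s < t.1 ∧ t.1 ≤ 2 * (NN κ ξ k * 2 ^ s))) : ℝ) := by
      exact_mod_cast (card_le_card hPs).trans card_biUnion_le
    refine h1.trans ?_
    have h2 := sum_le_card_nsmul (range (3 * e)) _ _ hcard
    rwa [card_range, nsmul_eq_mul] at h2
  -- the diagonal
  have hScard : (#S : ℝ) ≤ 4 * κ * MM κ ξ k := by
    have h1 : #S ≤ 4 * MM κ ξ (k + 1) := by
      have h2 := hA.card_le (NN_pos hκ hξ1 (k + 1)) (le_of_eq (NN_eq (k + 1)))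
      have h3 := card_cut_add A (NN_mono (ξ := ξ) hκ (show k ≤ k + 1 from Nat.le_succ k))
      have h4 : #S = #(cut A (NN κ ξ k) (NN κ ξ (k + 1))) := rfl
      omega
    have h2 : MM κ ξ (k + 1) = κ * MM κ ξ k := by
      unfold MM
      rw [pow_succ]
      ring
    rw [h2] at h1
    calc (#S : ℝ) ≤ ((4 * (κ * MM κ ξ k) : ℕ) : ℝ) := by exact_mod_cast h1
      _ = _ := by push_cast; ring
  have hprs : (prs S (fun b => b / NN κ ξ 0) 0 : ℝ) ≤ #S + 2 * #P := by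
    exact_mod_cast prs_le S (fun b => b / NN κ ξ 0)
  have hN0K : (NN κ ξ 0 : ℝ) * ((κ : ℝ) ^ 3) ^ k = (MM κ ξ k : ℝ) ^ 3 := by
    have h1 : (NN κ ξ k : ℝ) = (NN κ ξ 0 : ℝ) * ((κ : ℝ) ^ 3) ^ k := by
      rw [hNk0]; push_cast; ring
    rw [← h1, NN_eq]
    push_cast
    ring
  have hMξ : (4 * κ * ((κ : ℝ) ^ 3) ^ k) ≤ MM κ ξ k := by
    have h1 : ξ ≤ MM κ ξ k := Nat.le_mul_of_pos_right _ (by positivity)
    have h2 : (4 * κ * ((κ : ℝ) ^ 3) ^ k) ≤ (ξ : ℝ) := by exact_mod_cast hξ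
    exact h2.trans (by exact_mod_cast h1)
  unfold ee
  rw [← hS, Nat.sub_zero, div_le_iff₀ (by positivity)]
  have h1 : (prs S (fun b => b / NN κ ξ 0) 0 : ℝ) ≤ 4 * κ * MM κ ξ k +
      6 * e * |C| * ((NN κ ξ 0 : ℝ) / (MM κ ξ k : ℝ)) := by
    refine hprs.trans ?_
    have : 2 * (#P : ℝ) ≤ 6 * e * |C| * ((NN κ ξ 0 : ℝ) / (MM κ ξ k : ℝ)) := by
      calc 2 * (#P : ℝ) ≤ 2 * ((3 * e : ℕ) * (|C| * ((NN κ ξ 0 : ℝ) / (MM κ ξ k : ℝ)))) := by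
            linarith
        _ = _ := by push_cast; ring
    linarith
  calc (prs S (fun b => b / NN κ ξ 0) 0 : ℝ) * ((κ : ℝ) ^ 3) ^ k
      ≤ (4 * κ * MM κ ξ k + 6 * e * |C| * ((NN κ ξ 0 : ℝ) / (MM κ ξ k : ℝ))) *
          ((κ : ℝ) ^ 3) ^ k := mul_le_mul_of_nonneg_right h1 (by positivity)
    _ = (4 * κ * ((κ : ℝ) ^ 3) ^ k) * MM κ ξ k + 6 * e * |C| *
          ((NN κ ξ 0 : ℝ) * ((κ : ℝ) ^ 3) ^ k / (MM κ ξ k : ℝ)) := by ring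
    _ = (4 * κ * ((κ : ℝ) ^ 3) ^ k) * MM κ ξ k + 6 * e * |C| * (MM κ ξ k : ℝ) ^ 2 := by
          rw [hN0K]; field_simp
    _ ≤ (MM κ ξ k : ℝ) * MM κ ξ k + 6 * e * |C| * (MM κ ξ k : ℝ) ^ 2 := by
          have := mul_le_mul_of_nonneg_right hMξ hM.le
          linarith
    _ = (1 + 6 * e * |C|) * (MM κ ξ k : ℝ) ^ 2 := by ring

theorem exists_cube (x : ℕ) (hx : 1 ≤ x) : ∃ ξ : ℕ, x ≤ ξ ^ 3 ∧ ξ ^ 3 ≤ 8 * x := by
  have hex : ∃ ξ : ℕ, x ≤ ξ ^ 3 := ⟨x, Nat.le_self_pow (by norm_num) x⟩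
  classical
  refine ⟨Nat.find hex, Nat.find_spec hex, ?_⟩
  have h1 : 1 ≤ Nat.find hex := by
    rw [Nat.one_le_iff_ne_zero]
    intro h0
    have := Nat.find_spec hex
    rw [h0] at this
    omega
  have h2 : (Nat.find hex - 1) ^ 3 < x := by
    have := Nat.find_min hex (m := Nat.find hex - 1) (by omega)
    omega
  obtain ⟨n, hn⟩ : ∃ n, Nat.find hex = n + 1 := ⟨Nat.find hex - 1, by omega⟩
  rw [hn] at h2 ⊢
  rw [Nat.add_sub_cancel] at h2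
  rcases Nat.eq_zero_or_pos n with h3 | h3
  · rw [h3]
    omega
  · calc (n + 1) ^ 3 ≤ (2 * n) ^ 3 := Nat.pow_le_pow_left (by omega) 3
      _ = 8 * n ^ 3 := by ring
      _ ≤ 8 * x := by omega

theorem main (C c : ℝ) (hc : 0 < c) : ∃ L : ℕ, ∀ A : Set ℕ, B3 A → PairBound A C →
    ∃ x₁ : ℕ, ∀ x : ℕ, x₁ ≤ x → ∃ N : ℕ, x ≤ N ∧ N ≤ L * x ∧
      ((A ∩ Set.Icc 1 N).ncard : ℝ) < c * (N : ℝ) ^ (1 / 3 : ℝ) := by
  classical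
  obtain ⟨n, hn⟩ := pow_unbounded_of_one_lt (5 / c) (one_lt_two (α := ℝ))
  set e := n + 1 with he
  set κ := 2 ^ e with hκe
  have hcκ : 5 ≤ c * κ := by
    have h1 : (5 : ℝ) < 2 ^ n * c := (div_lt_iff₀ hc).1 hn
    have h2 : (κ : ℝ) = 2 ^ n * 2 := by rw [hκe, he]; push_cast; ring
    rw [h2]
    nlinarith
  have hκ : 2 ≤ κ := by
    rw [hκe, he, pow_succ]
    have : 1 ≤ 2 ^ n := Nat.one_le_two_pow
    omega
  set C2 := ⌈1 + 6 * (e : ℝ) * |C|⌉₊ with hC2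
  set p := 80 * κ ^ 3 * C2 + 1 with hp
  set W := R κ p with hW
  refine ⟨8 * (κ ^ 3) ^ (2 * W), ?_⟩
  intro A hA hP
  choose! x0 hx0 using hP
  set x₁ := (4 * κ * (κ ^ 3) ^ (2 * W)) ^ 3 + ∑ k ∈ range (2 * W), ∑ s ∈ range (3 * e),
    x0 (1 / (2 ^ s * ((κ : ℝ) ^ 3) ^ k)) with hx₁
  refine ⟨x₁, ?_⟩
  intro x hx
  have hbase : 1 ≤ 4 * κ * (κ ^ 3) ^ (2 * W) := Nat.mul_pos (by omega) (by positivity)
  have hx1 : 1 ≤ x := by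
    have h1 : 1 ≤ (4 * κ * (κ ^ 3) ^ (2 * W)) ^ 3 := Nat.one_le_pow _ _ hbase
    omega
  obtain ⟨ξ, hξx, hξ8⟩ := exists_cube x hx1
  by_contra hcon
  push Not at hcon
  have hξ : 4 * κ * (κ ^ 3) ^ (2 * W) ≤ ξ := by
    have h1 : (4 * κ * (κ ^ 3) ^ (2 * W)) ^ 3 ≤ ξ ^ 3 := by omega
    exact (Nat.pow_le_pow_iff_left (by norm_num)).1 h1
  have hξ1 : 1 ≤ ξ := hbase.trans hξ
  have hN0 : NN κ ξ 0 = ξ ^ 3 := by unfold NN; rw [pow_zero, mul_one]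
  have hNk : ∀ k ≤ 2 * W, x ≤ NN κ ξ k ∧ NN κ ξ k ≤ 8 * (κ ^ 3) ^ (2 * W) * x := by
    intro k hk
    have h1 := NN_mono (ξ := ξ) hκ (Nat.zero_le k)
    have h2 := NN_mono (ξ := ξ) hκ hk
    have h3 := NN_add (κ := κ) (ξ := ξ) 0 (2 * W)
    rw [zero_add] at h3
    rw [hN0] at h1 h3
    refine ⟨hξx.trans h1, h2.trans ?_⟩
    rw [h3]
    calc ξ ^ 3 * (κ ^ 3) ^ (2 * W) ≤ 8 * x * (κ ^ 3) ^ (2 * W) := Nat.mul_le_mul_right _ hξ8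
      _ = _ := by ring
  refine core (κ := κ) (ξ := ξ) hA hκ hξ1 C2 p rfl ?_ ?_
  · intro k hk
    have h1 := hcon (NN κ ξ (k + 1)) (hNk (k + 1) (by omega)).1 (hNk (k + 1) (by omega)).2
    rw [ncard_cut, NN_eq (k + 1), cbrt_cube, ← NN_eq] at h1
    have h2 := hA.card_le (NN_pos hκ hξ1 k) (le_of_eq (NN_eq k))
    have h3 := card_cut_add A (NN_mono (ξ := ξ) hκ (show k ≤ k + 1 from Nat.le_succ k))
    have h4 : MM κ ξ (k + 1) = κ * MM κ ξ k := by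
      unfold MM
      rw [pow_succ]
      ring
    rw [h4] at h1
    have h5 : (#(cut A 0 (NN κ ξ k)) : ℝ) ≤ 4 * MM κ ξ k := by exact_mod_cast h2
    have h6 : (#(cut A 0 (NN κ ξ (k + 1))) : ℝ) = #(cut A 0 (NN κ ξ k)) +
        #(SS A κ ξ k) := by exact_mod_cast h3
    have hM := Mr_pos hκ hξ1 k
    push_cast at h1
    have h7 : 5 * (MM κ ξ k : ℝ) ≤ c * κ * MM κ ξ k := mul_le_mul_of_nonneg_right hcκ hM.le
    have h8 : (MM κ ξ k : ℝ) ≤ #(SS A κ ξ k) := by linarith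
    exact_mod_cast h8
  · intro k hk j hj
    refine (ee_anti hκ hξ1 (Nat.zero_le j) hj).trans ?_
    refine le_trans ?_ (Nat.le_ceil _)
    refine ee_le hA (e := e) (by omega) rfl ?_ ?_
    · refine le_trans ?_ hξ
      apply Nat.mul_le_mul_left
      exact Nat.pow_le_pow_right (by positivity) (by omega)
    · intro s hs
      refine hx0 _ (by positivity) _ ?_
      have h1 : x0 (1 / (2 ^ s * ((κ : ℝ) ^ 3) ^ k)) ≤ ∑ s ∈ range (3 * e),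
          x0 (1 / (2 ^ s * ((κ : ℝ) ^ 3) ^ k)) :=
        single_le_sum (f := fun s => x0 (1 / (2 ^ s * ((κ : ℝ) ^ 3) ^ k)))
          (fun _ _ => Nat.zero_le _) (mem_range.2 hs)
      have h2 : ∑ s ∈ range (3 * e), x0 (1 / (2 ^ s * ((κ : ℝ) ^ 3) ^ k)) ≤
          ∑ k ∈ range (2 * W), ∑ s ∈ range (3 * e), x0 (1 / (2 ^ s * ((κ : ℝ) ^ 3) ^ k)) :=
        single_le_sum (f := fun k => ∑ s ∈ range (3 * e),
          x0 (1 / (2 ^ s * ((κ : ℝ) ^ 3) ^ k))) (fun _ _ => Nat.zero_le _) (mem_range.2 hk)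
      have h3 : x ≤ NN κ ξ k * 2 ^ s :=
        (hNk k (by omega)).1.trans (Nat.le_mul_of_pos_right _ (by positivity))
      omega

end Pool.Agent.H56.BT
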