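import Pool.Agent.H56.BT.Seq
import Pool.Agent.H56.BT.Basic

/-!
# Pairs in a finite set with a given difference of their cells
-/

namespace Pool.Agent.H56.BT

open Finset

/-- number of pairs `(b, c)` in `S` with `g b = g c + m` -/
def prs (S : Finset ℕ) (g : ℕ → ℕ) (m : ℕ) : ℕ :=
  #((S ×ˢ S).filter (fun t => g t.1 = g t.2 + m))

/-- number of elements with `g b = l` -/
noncomputable def fib (S : Finset ℕ) (g : ℕ → ℕ) (l : ℕ) : ℝ := #(S.filter (fun b => g b = l))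

theorem fib_nonneg (S : Finset ℕ) (g : ℕ → ℕ) (l : ℕ) : 0 ≤ fib S g l := Nat.cast_nonneg _

theorem prs_eq (S : Finset ℕ) (g : ℕ → ℕ) (m L : ℕ) (hL : ∀ b ∈ S, g b < L) :
    (prs S g m : ℝ) = ∑ l ∈ range L, fib S g (l + m) * fib S g l := by
  have h := card_eq_sum_card_fiberwise (f := fun t : ℕ × ℕ => g t.2)
    (s := (S ×ˢ S).filter (fun t => g t.1 = g t.2 + m)) (t := range L) (by
      intro t ht
      simp only [coe_filter, mem_product, Set.mem_ofPred_eq] at ht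
      simpa using hL _ ht.1.2)
  rw [prs, h, Nat.cast_sum]
  refine sum_congr rfl fun l _ => ?_
  have h2 : ((S ×ˢ S).filter (fun t => g t.1 = g t.2 + m)).filter (fun t => g t.2 = l) =
      (S.filter (fun b => g b = l + m)) ×ˢ (S.filter (fun b => g b = l)) := by
    ext ⟨b, c⟩
    simp only [mem_filter, mem_product]
    constructor
    · rintro ⟨⟨⟨h1, h2⟩, h3⟩, h4⟩
      exact ⟨⟨h1, by omega⟩, h2, h4⟩
    · rintro ⟨⟨h1, h2⟩, h3, h4⟩
      exact ⟨⟨⟨h1, h3⟩, by omega⟩, h4⟩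
  rw [h2, card_product, Nat.cast_mul]
  rfl

theorem fib_div (S : Finset ℕ) (g : ℕ → ℕ) (T u : ℕ) (hT : 0 < T) :
    fib S (fun b => g b / T) u = ∑ v ∈ range T, fib S g (u * T + v) := by
  have h := card_eq_sum_card_fiberwise (f := fun b : ℕ => g b % T)
    (s := S.filter (fun b => g b / T = u)) (t := range T) (by
      intro b _
      simpa using Nat.mod_lt _ hT)
  rw [fib, h, Nat.cast_sum]
  refine sum_congr rfl fun v hv => ?_
  rw [mem_range] at hv
  rw [fib]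
  congr 2
  ext b
  simp only [mem_filter]
  constructor
  · rintro ⟨⟨h1, h2⟩, h3⟩
    refine ⟨h1, ?_⟩
    have := Nat.div_add_mod (g b) T
    rw [h2, h3] at this
    rw [← this, mul_comm]
  · rintro ⟨h1, h2⟩
    refine ⟨⟨h1, ?_⟩, ?_⟩
    · rw [h2, mul_comm, Nat.mul_add_div hT, Nat.div_eq_of_lt hv, add_zero]
    · rw [h2, mul_comm, Nat.mul_add_mod, Nat.mod_eq_of_lt hv]

theorem prs_div (S : Finset ℕ) (g : ℕ → ℕ) (T U : ℕ) (hT : 0 < T)
    (hU : ∀ b ∈ S, g b / T < U) : (prs S (fun b => g b / T) 0 : ℝ) =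
      ∑ u ∈ range U, (∑ v ∈ range T, fib S g (u * T + v)) ^ 2 := by
  rw [prs_eq S _ 0 U hU]
  refine sum_congr rfl fun u _ => ?_
  rw [add_zero, fib_div S g T u hT, sq]

theorem lt_mul_of_div {S : Finset ℕ} {g : ℕ → ℕ} {T U : ℕ} (hT : 0 < T)
    (hU : ∀ b ∈ S, g b / T < U) : ∀ b ∈ S, g b < U * T := by
  intro b hb
  exact (Nat.div_lt_iff_lt_mul hT).1 (hU b hb)

theorem prs_corr (S : Finset ℕ) (g : ℕ → ℕ) (T U m : ℕ) (hT : 0 < T) (hm : 2 * m ≤ T)
    (hU : ∀ b ∈ S, g b / T < U) :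
    3 / 8 * ((prs S (fun b => g b / T) 0 : ℝ) / T) -
      5 * ((prs S g 0 : ℝ) - (prs S (fun b => g b / T) 0 : ℝ) / T) ≤ (prs S g m : ℝ) := by
  rw [prs_div S g T U hT hU, prs_eq S g m (U * T) (lt_mul_of_div hT hU),
    prs_eq S g 0 (U * T) (lt_mul_of_div hT hU)]
  have h := corr_blocks (fib S g) (fib_nonneg S g) U T m hT hm
  have h2 : ∑ l ∈ range (U * T), fib S g (l + 0) * fib S g l =
      ∑ l ∈ range (U * T), fib S g l ^ 2 := sum_congr rfl fun l _ => by rw [add_zero, sq]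
  rw [h2]
  exact h

theorem prs_mono (S : Finset ℕ) (g : ℕ → ℕ) (T U : ℕ) (hT : 0 < T)
    (hU : ∀ b ∈ S, g b / T < U) :
    (prs S (fun b => g b / T) 0 : ℝ) / T ≤ (prs S g 0 : ℝ) := by
  rw [prs_div S g T U hT hU, prs_eq S g 0 (U * T) (lt_mul_of_div hT hU)]
  have h := var_blocks (fib S g) U T hT
  have h2 : ∑ l ∈ range (U * T), fib S g (l + 0) * fib S g l =
      ∑ l ∈ range (U * T), fib S g l ^ 2 := sum_congr rfl fun l _ => by rw [add_zero, sq]
  rw [h2]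
  exact h

theorem prs_lower (S : Finset ℕ) (g : ℕ → ℕ) (U : ℕ) (hU : ∀ b ∈ S, g b < U) :
    (#S : ℝ) ^ 2 ≤ U * (prs S g 0 : ℝ) := by
  have h1 : (#S : ℝ) = ∑ l ∈ range U, fib S g l := by
    rw [card_eq_sum_card_fiberwise (f := g) (s := S) (t := range U) (by
      intro b hb
      simpa using hU b hb), Nat.cast_sum]
    rfl
  rw [prs_eq S g 0 U hU, h1]
  have h := sq_sum_le_card_mul_sum_sq (s := range U) (f := fib S g)
  rw [card_range] at h
  have h2 : ∑ l ∈ range U, fib S g (l + 0) * fib S g l =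
      ∑ l ∈ range U, fib S g l ^ 2 := sum_congr rfl fun l _ => by rw [add_zero, sq]
  rw [h2]
  exact h

end Pool.Agent.H56.BT
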