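import Pool.Agent.H56.BT.Pairs

/-!
# Scales, energies
-/

namespace Pool.Agent.H56.BT

open Finset

variable (A : Set ℕ) (κ ξ : ℕ)

/-- `M_k = ξ κ^k` -/
def MM (k : ℕ) : ℕ := ξ * κ ^ k

/-- `N_k = M_k³` -/
def NN (k : ℕ) : ℕ := (ξ * κ ^ k) ^ 3

/-- the part of `A` in the `k`-th scale -/
noncomputable def SS (k : ℕ) : Finset ℕ := cut A (NN κ ξ k) (NN κ ξ (k + 1))

/-- the energy of the `k`-th scale at resolution `N_j` -/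
noncomputable def ee (k j : ℕ) : ℝ :=
  (prs (SS A κ ξ k) (fun b => b / NN κ ξ j) 0 : ℝ) * ((κ : ℝ) ^ 3) ^ (k - j) /
    (MM κ ξ k : ℝ) ^ 2

variable {A κ ξ}

theorem NN_eq (k : ℕ) : NN κ ξ k = MM κ ξ k ^ 3 := rfl

theorem MM_pos (hκ : 2 ≤ κ) (hξ : 1 ≤ ξ) (k : ℕ) : 0 < MM κ ξ k := by
  unfold MM; positivity

theorem NN_pos (hκ : 2 ≤ κ) (hξ : 1 ≤ ξ) (k : ℕ) : 0 < NN κ ξ k := by
  rw [NN_eq]; exact pow_pos (MM_pos hκ hξ k) 3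

theorem NN_add (j t : ℕ) : NN κ ξ (j + t) = NN κ ξ j * (κ ^ 3) ^ t := by
  unfold NN
  rw [pow_add]
  ring

theorem NN_mono (hκ : 2 ≤ κ) {i j : ℕ} (h : i ≤ j) : NN κ ξ i ≤ NN κ ξ j := by
  obtain ⟨t, rfl⟩ := Nat.exists_eq_add_of_le h
  rw [NN_add]
  exact Nat.le_mul_of_pos_right _ (by positivity)

theorem K_ge (hκ : 2 ≤ κ) : 8 ≤ κ ^ 3 := by
  calc 8 = 2 ^ 3 := by norm_num
    _ ≤ κ ^ 3 := Nat.pow_le_pow_left hκ 3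

theorem div_NN {j i : ℕ} (h : j ≤ i) (b : ℕ) :
    b / NN κ ξ j / (κ ^ 3) ^ (i - j) = b / NN κ ξ i := by
  obtain ⟨t, rfl⟩ := Nat.exists_eq_add_of_le h
  rw [NN_add, Nat.div_div_eq_div_mul, Nat.add_sub_cancel_left]

theorem div_lt (hκ : 2 ≤ κ) (hξ : 1 ≤ ξ) {k i b : ℕ} (hi : i ≤ k) (hb : b ∈ SS A κ ξ k) :
    b / NN κ ξ i < (κ ^ 3) ^ (k + 1 - i) + 1 := by
  have h1 : b ≤ NN κ ξ (k + 1) := (mem_cut.1 hb).1.2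
  have h2 : NN κ ξ (k + 1) = NN κ ξ i * (κ ^ 3) ^ (k + 1 - i) := by
    rw [← NN_add]
    congr 1
    omega
  rw [h2] at h1
  rw [Nat.lt_succ_iff]
  exact (Nat.div_le_iff_le_mul_add_pred (NN_pos hκ hξ i)).2 (by omega)

theorem Kr_pos (hκ : 2 ≤ κ) : (0 : ℝ) < (κ : ℝ) ^ 3 := by
  have : (0 : ℝ) < κ := by exact_mod_cast (by omega : 0 < κ)
  positivity

theorem Mr_pos (hκ : 2 ≤ κ) (hξ : 1 ≤ ξ) (k : ℕ) : (0 : ℝ) < (MM κ ξ k : ℝ) := by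
  exact_mod_cast MM_pos hκ hξ k

theorem ee_anti (hκ : 2 ≤ κ) (hξ : 1 ≤ ξ) {k i j : ℕ} (hji : j ≤ i) (hik : i ≤ k) :
    ee A κ ξ k i ≤ ee A κ ξ k j := by
  have hT : 0 < (κ ^ 3) ^ (i - j) := by positivity
  have h := prs_mono (SS A κ ξ k) (fun b => b / NN κ ξ j) ((κ ^ 3) ^ (i - j))
    ((κ ^ 3) ^ (k + 1 - i) + 1) hT (by
      intro b hb
      rw [div_NN hji]
      exact div_lt hκ hξ hik hb)
  simp only [div_NN hji] at h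
  have hK := Kr_pos hκ
  have hM := Mr_pos hκ hξ k
  unfold ee
  apply div_le_div_of_nonneg_right _ (by positivity)
  have h1 : ((κ : ℝ) ^ 3) ^ (k - j) = ((κ : ℝ) ^ 3) ^ (i - j) * ((κ : ℝ) ^ 3) ^ (k - i) := by
    rw [← pow_add]
    congr 1
    omega
  rw [h1, ← mul_assoc]
  apply mul_le_mul_of_nonneg_right _ (by positivity)
  push_cast at h
  rwa [div_le_iff₀ (by positivity)] at h

theorem ee_lower (hκ : 2 ≤ κ) (hξ : 1 ≤ ξ) {k i : ℕ} (hik : i ≤ k)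
    (hS : MM κ ξ k ≤ #(SS A κ ξ k)) : 1 / (2 * (κ : ℝ) ^ 3) ≤ ee A κ ξ k i := by
  have h := prs_lower (SS A κ ξ k) (fun b => b / NN κ ξ i) ((κ ^ 3) ^ (k + 1 - i) + 1)
    (fun b hb => div_lt hκ hξ hik hb)
  have hK := Kr_pos hκ
  have hM := Mr_pos hκ hξ k
  have hS' : (MM κ ξ k : ℝ) ≤ #(SS A κ ξ k) := by exact_mod_cast hS
  have h1 : (MM κ ξ k : ℝ) ^ 2 ≤ (#(SS A κ ξ k) : ℝ) ^ 2 := pow_le_pow_left₀ hM.le hS' 2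
  have h2 : ((((κ ^ 3) ^ (k + 1 - i) + 1 : ℕ)) : ℝ) ≤ 2 * ((κ : ℝ) ^ 3) ^ (k + 1 - i) := by
    have h3 : (1 : ℝ) ≤ ((κ : ℝ) ^ 3) ^ (k + 1 - i) := by
      apply one_le_pow₀
      apply one_le_pow₀
      exact_mod_cast (by omega : 1 ≤ κ)
    push_cast
    linarith
  have h3 : (MM κ ξ k : ℝ) ^ 2 ≤ 2 * ((κ : ℝ) ^ 3) ^ (k + 1 - i) *
      (prs (SS A κ ξ k) (fun b => b / NN κ ξ i) 0 : ℝ) :=
    h1.trans (h.trans (mul_le_mul_of_nonneg_right h2 (Nat.cast_nonneg _)))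
  unfold ee
  rw [div_le_div_iff₀ (by positivity) (by positivity), one_mul]
  have h4 : ((κ : ℝ) ^ 3) ^ (k + 1 - i) = ((κ : ℝ) ^ 3) ^ (k - i) * (κ : ℝ) ^ 3 := by
    rw [← pow_succ]
    congr 1
    omega
  rw [h4] at h3
  linarith

/-- the correlation at a shift `m` -/
theorem corr_lower (hκ : 2 ≤ κ) (hξ : 1 ≤ ξ) {k i j m : ℕ} (hji : j ≤ i) (hik : i ≤ k)
    (hS : MM κ ξ k ≤ #(SS A κ ξ k)) (hm : 2 * m ≤ (κ ^ 3) ^ (i - j))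
    (he : ee A κ ξ k j - ee A κ ξ k i ≤ 1 / (80 * (κ : ℝ) ^ 3)) :
    (MM κ ξ k : ℝ) ^ 2 / (8 * (κ : ℝ) ^ 3 * ((κ : ℝ) ^ 3) ^ (k - j)) ≤
      (prs (SS A κ ξ k) (fun b => b / NN κ ξ j) m : ℝ) := by
  have hT : 0 < (κ ^ 3) ^ (i - j) := by positivity
  have h := prs_corr (SS A κ ξ k) (fun b => b / NN κ ξ j) ((κ ^ 3) ^ (i - j))
    ((κ ^ 3) ^ (k + 1 - i) + 1) m hT hm (by
      intro b hb
      rw [div_NN hji]
      exact div_lt hκ hξ hik hb)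
  simp only [div_NN hji] at h
  refine le_trans ?_ h
  have hK := Kr_pos hκ
  have hM := Mr_pos hκ hξ k
  have hlow := ee_lower (A := A) hκ hξ hik hS
  set Q : ℝ := ((κ : ℝ) ^ 3) ^ (k - j) with hQ
  have hQpos : 0 < Q := by positivity
  have h1 : (prs (SS A κ ξ k) (fun b => b / NN κ ξ j) 0 : ℝ) =
      ee A κ ξ k j * ((MM κ ξ k : ℝ) ^ 2 / Q) := by
    unfold ee
    rw [← hQ]
    field_simp
  have h2 : (prs (SS A κ ξ k) (fun b => b / NN κ ξ i) 0 : ℝ) / (((κ ^ 3) ^ (i - j) : ℕ) : ℝ) =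
      ee A κ ξ k i * ((MM κ ξ k : ℝ) ^ 2 / Q) := by
    unfold ee
    have h3 : Q = ((κ : ℝ) ^ 3) ^ (i - j) * ((κ : ℝ) ^ 3) ^ (k - i) := by
      rw [hQ, ← pow_add]
      congr 1
      omega
    rw [h3]
    push_cast
    field_simp
  rw [h1, h2]
  have h4 : (MM κ ξ k : ℝ) ^ 2 / (8 * (κ : ℝ) ^ 3 * Q) =
      1 / (8 * (κ : ℝ) ^ 3) * ((MM κ ξ k : ℝ) ^ 2 / Q) := by
    field_simp
  rw [h4]
  have h5 : 1 / (8 * (κ : ℝ) ^ 3) ≤ 3 / 8 * ee A κ ξ k i - 5 * (ee A κ ξ k j - ee A κ ξ k i) := by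
    have e1 : 1 / (8 * (κ : ℝ) ^ 3) = 3 / 8 * (1 / (2 * (κ : ℝ) ^ 3)) -
        5 * (1 / (80 * (κ : ℝ) ^ 3)) := by
      field_simp
      norm_num
    rw [e1]
    linarith
  have h6 : 0 ≤ (MM κ ξ k : ℝ) ^ 2 / Q := by positivity
  have h7 := mul_le_mul_of_nonneg_right h5 h6
  linarith

end Pool.Agent.H56.BT
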