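import Mathlib

/-!
# A correlation inequality

For `f : ℕ → ℝ` nonnegative and `m ≤ T / 2`: the correlation `∑ f (l + m) f l` over a block of
length `T` is at least `(3/8) (∑ f)² / T - 5 (∑ f² - (∑ f)² / T)`.
-/

namespace Pool.Agent.H56.BT

open Finset

theorem sum_range_mul_block (h : ℕ → ℝ) (U T : ℕ) :
    ∑ l ∈ range (U * T), h l = ∑ u ∈ range U, ∑ v ∈ range T, h (u * T + v) := by
  induction U with
  | zero => simp
  | succ U ih => rw [Nat.succ_mul, sum_range_add, ih, sum_range_succ]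

/-- one block -/
theorem corr_block (f : ℕ → ℝ) (T m : ℕ) (hT : 0 < T) (hm : 2 * m ≤ T) :
    3 / 8 * ((∑ v ∈ range T, f v) ^ 2 / T) -
      5 * (∑ v ∈ range T, f v ^ 2 - (∑ v ∈ range T, f v) ^ 2 / T) ≤
    ∑ v ∈ range (T - m), f (v + m) * f v := by
  have hT' : (0 : ℝ) < T := by exact_mod_cast hT
  set s := ∑ v ∈ range T, f v with hs
  set b := s / T with hb
  have hbT : s = T * b := by rw [hb]; field_simp
  have hvar : ∑ v ∈ range T, (f v - b) ^ 2 = ∑ v ∈ range T, f v ^ 2 - s ^ 2 / T := by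
    have h1 : ∀ v, (f v - b) ^ 2 = f v ^ 2 - 2 * b * f v + b ^ 2 := fun v => by ring
    simp only [h1, sum_add_distrib, sum_sub_distrib, ← mul_sum, sum_const, card_range,
      nsmul_eq_mul, ← hs]
    rw [hbT]
    field_simp
    ring
  have hpt : ∀ v, 3 / 4 * b ^ 2 - 5 / 2 * ((f (v + m) - b) ^ 2 + (f v - b) ^ 2) ≤
      f (v + m) * f v := by
    intro v
    nlinarith [sq_nonneg (b + 4 * (f (v + m) - b)), sq_nonneg (b + 4 * (f v - b)),
      sq_nonneg ((f (v + m) - b) + (f v - b))]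
  have h2 : ∑ v ∈ range (T - m), (3 / 4 * b ^ 2 -
      5 / 2 * ((f (v + m) - b) ^ 2 + (f v - b) ^ 2)) ≤
      ∑ v ∈ range (T - m), f (v + m) * f v := sum_le_sum fun v _ => hpt v
  refine le_trans ?_ h2
  have h3 : ∑ v ∈ range (T - m), (f v - b) ^ 2 ≤ ∑ v ∈ range T, (f v - b) ^ 2 :=
    sum_le_sum_of_subset_of_nonneg (range_mono (Nat.sub_le T m)) fun v _ _ => sq_nonneg _
  have h4 : ∑ v ∈ range (T - m), (f (v + m) - b) ^ 2 ≤ ∑ v ∈ range T, (f v - b) ^ 2 := by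
    have e : T = m + (T - m) := by omega
    conv_rhs => rw [e, sum_range_add]
    have h5 : ∑ v ∈ range (T - m), (f (v + m) - b) ^ 2 =
        ∑ v ∈ range (T - m), (f (m + v) - b) ^ 2 :=
      sum_congr rfl fun v _ => by rw [add_comm]
    rw [h5]
    have h6 : 0 ≤ ∑ v ∈ range m, (f v - b) ^ 2 := sum_nonneg fun v _ => sq_nonneg _
    linarith
  have h7 : (T : ℝ) / 2 ≤ ((T - m : ℕ) : ℝ) := by
    rw [Nat.cast_sub (by omega)]
    have : (2 : ℝ) * m ≤ T := by exact_mod_cast hm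
    linarith
  have h8 : s ^ 2 / T = T * b ^ 2 := by
    rw [hbT]
    field_simp
  rw [sum_sub_distrib, sum_const, card_range, nsmul_eq_mul, ← mul_sum, sum_add_distrib]
  rw [hvar] at h3 h4
  have h9 : (T : ℝ) / 2 * (3 / 4 * b ^ 2) ≤ ((T - m : ℕ) : ℝ) * (3 / 4 * b ^ 2) :=
    mul_le_mul_of_nonneg_right h7 (by positivity)
  rw [h8] at h3 h4 ⊢
  nlinarith

theorem var_block (f : ℕ → ℝ) (T : ℕ) (hT : 0 < T) :
    (∑ v ∈ range T, f v) ^ 2 / T ≤ ∑ v ∈ range T, f v ^ 2 := by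
  have hT' : (0 : ℝ) < T := by exact_mod_cast hT
  rw [div_le_iff₀ hT']
  have h := sq_sum_le_card_mul_sum_sq (s := range T) (f := f)
  rw [card_range] at h
  linarith

/-- all blocks -/
theorem corr_blocks (f : ℕ → ℝ) (hf : ∀ l, 0 ≤ f l) (U T m : ℕ) (hT : 0 < T)
    (hm : 2 * m ≤ T) :
    3 / 8 * ((∑ u ∈ range U, (∑ v ∈ range T, f (u * T + v)) ^ 2) / T) -
      5 * (∑ l ∈ range (U * T), f l ^ 2 -
        (∑ u ∈ range U, (∑ v ∈ range T, f (u * T + v)) ^ 2) / T) ≤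
    ∑ l ∈ range (U * T), f (l + m) * f l := by
  rw [sum_range_mul_block, sum_range_mul_block]
  have h : ∀ u ∈ range U, 3 / 8 * ((∑ v ∈ range T, f (u * T + v)) ^ 2 / T) -
      5 * (∑ v ∈ range T, f (u * T + v) ^ 2 - (∑ v ∈ range T, f (u * T + v)) ^ 2 / T) ≤
      ∑ v ∈ range T, f (u * T + v + m) * f (u * T + v) := by
    intro u _
    have h1 := corr_block (fun v => f (u * T + v)) T m hT hm
    simp only [← add_assoc] at h1
    refine h1.trans (sum_le_sum_of_subset_of_nonneg (f := fun v => f (u * T + v + m) *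
      f (u * T + v)) (range_mono (Nat.sub_le T m)) fun v _ _ => ?_)
    exact mul_nonneg (hf _) (hf _)
  have h2 := Finset.sum_le_sum (N := ℝ) h
  refine le_trans (le_of_eq ?_) h2
  rw [sum_sub_distrib, ← mul_sum, ← mul_sum, sum_sub_distrib, sum_div]

theorem var_blocks (f : ℕ → ℝ) (U T : ℕ) (hT : 0 < T) :
    (∑ u ∈ range U, (∑ v ∈ range T, f (u * T + v)) ^ 2) / T ≤ ∑ l ∈ range (U * T), f l ^ 2 := by
  rw [sum_range_mul_block, sum_div]
  exact sum_le_sum fun u _ => var_block (fun v => f (u * T + v)) T hT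

end Pool.Agent.H56.BT
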